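import Mathlib
import Pool.Agent.Helper606_SL.Pos

/-!
# MP_0a2dc5_al: subgroup lattices which do not embed into subspace lattices

The answer to both questions is yes. If `n ≠ 1` is not a prime number (`n = 0` is allowed, where
`ZMod 0 = ℤ`) and the abelian group `A` contains a copy of `(ℤ/n)³`, then the lattice of the subgroups
of `A` has no lattice embedding into the lattice of the subspaces of a vector space over a division
ring. In particular the finite group `(ℤ/4)³` is an example.

The lattices are those of Mathlib: in `AddSubgroup A` and in `Submodule D V` the meet is the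
intersection and the join is the sum; a `LatticeHom` is a map which preserves binary meets and joins.
-/

set_option autoImplicit false

universe u v w x

namespace Pool.Agent.Results.MP_0a2dc5_al.NonPrimeFrames

open Pool.Agent.Helper606_SL

theorem result :
    -- Q1 and Q2: there is a finite abelian group whose subgroup lattice has no embedding
    (∃ (A : Type) (_ : AddCommGroup A) (_ : Finite A),
      ∀ (D : Type v) [DivisionRing D] (V : Type w) [AddCommGroup V] [Module D V],
        ¬ ∃ f : LatticeHom (AddSubgroup A) (Submodule D V), Function.Injective f) ∧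
    -- every abelian group which contains `(ℤ/n)³` for some `n ≠ 1` which is not a prime number
    -- (in particular `ℤ³` and `(ℤ/4)³`) is an example
    (∀ (A : Type u) [AddCommGroup A] (n : ℕ), n ≠ 1 → ¬ n.Prime →
      ∀ ι : (Fin 3 → ZMod n) →+ A, Function.Injective ι →
      ∀ (D : Type v) [DivisionRing D] (V : Type w) [AddCommGroup V] [Module D V],
        ¬ ∃ f : LatticeHom (AddSubgroup A) (Submodule D V), Function.Injective f) ∧
    -- if `n` is not squarefree, then there is not even an embedding into a product of subspace
    -- lattices over various division rings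
    (∀ (A : Type u) [AddCommGroup A] (n : ℕ), ¬ Squarefree n →
      ∀ ι : (Fin 3 → ZMod n) →+ A, Function.Injective ι →
      ∀ (I : Type x) (D : I → Type v) [∀ i, DivisionRing (D i)] (V : I → Type w)
        [∀ i, AddCommGroup (V i)] [∀ i, Module (D i) (V i)],
        ¬ ∃ f : LatticeHom (AddSubgroup A) (∀ i, Submodule (D i) (V i)), Function.Injective f) ∧
    -- for the groups `(ℤ/n)^m`, `m ≥ 3`, both statements are sharp
    (∀ m n : ℕ, 3 ≤ m →
      ((∃ (D : Type) (_ : DivisionRing D) (V : Type) (_ : AddCommGroup V) (_ : Module D V)
          (f : LatticeHom (AddSubgroup (Fin m → ZMod n)) (Submodule D V)), Function.Injective f) ↔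
        n = 1 ∨ n.Prime) ∧
      ((∃ (I : Type) (D : I → Type) (_ : ∀ i, DivisionRing (D i)) (V : I → Type)
          (_ : ∀ i, AddCommGroup (V i)) (_ : ∀ i, Module (D i) (V i))
          (f : LatticeHom (AddSubgroup (Fin m → ZMod n)) (∀ i, Submodule (D i) (V i))),
          Function.Injective f) ↔ Squarefree n)) := by
  refine ⟨⟨Fin 3 → ZMod 4, inferInstance, inferInstance, ?_⟩, ?_, ?_, ?_⟩
  · rintro D _ V _ _ ⟨f, hf⟩
    exact not_injective (n := 4) (by decide) (by decide)
      (indep_of_inj (AddMonoidHom.id _) Function.injective_id) f hf
  · rintro A _ n hn1 hnp ι hι D _ V _ _ ⟨f, hf⟩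
    exact not_injective hn1 hnp (indep_of_inj ι hι) f hf
  · rintro A _ n hn ι hι I D _ V _ _ ⟨f, hf⟩
    exact not_injective_pi hn (indep_of_inj ι hι) f hf
  · intro m n hm
    let ι : (Fin 3 → ZMod n) →+ (Fin m → ZMod n) :=
      (LinearMap.funLeft ℤ (ZMod n) (fun i : Fin m => if h : (i : ℕ) < 3 then (⟨i, h⟩ : Fin 3) else 0)).toAddMonoidHom
    have hι : Function.Injective ι := by
      intro x y e
      funext i
      have := congrFun e (Fin.castLE hm i)
      simpa [ι, LinearMap.funLeft] using this
    refine ⟨⟨?_, ?_⟩, ⟨?_, ?_⟩⟩
    · rintro ⟨D, _, V, _, _, f, hf⟩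
      by_contra hcon
      rw [not_or] at hcon
      exact not_injective hcon.1 hcon.2 (indep_of_inj ι hι) f hf
    · rintro (rfl | hn)
      · exact exists_of_one m
      · exact exists_of_prime hn m
    · rintro ⟨I, D, _, V, _, _, f, hf⟩
      by_contra hcon
      exact not_injective_pi hcon (indep_of_inj ι hι) f hf
    · exact fun hn => exists_of_squarefree hn m

end Pool.Agent.Results.MP_0a2dc5_al.NonPrimeFrames
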